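import Mathlib
import Pool.Agent.Helper19.P3.Defs

/-!
# PS4, leaf P3-2: the window function and the reduction modulo `M`

`w a = (1/h) #{(x, y) ∈ [0, 2h)² : x - y = a - a₀}` in `ZMod M`; its Fourier coefficients are
`|Σ_{x < 2h} η x|² η (-a₀) / (h M)`, with sum of absolute values exactly `2`.
-/

namespace Pool.Agent.Helper19.P3

open Finset Pool.Agent.Helper58.LT

/-- number of `x, y < n` with `x - y = b` in `ZMod M` -/
private def wcnt (M n : ℕ) (b : ZMod M) : ℕ :=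
  #{z ∈ range n ×ˢ range n | ((z.1 : ℕ) : ZMod M) - ((z.2 : ℕ) : ZMod M) = b}

private theorem wcnt_fourier (M : ℕ) [NeZero M] (n : ℕ) (b : ZMod M) :
    (M : ℂ) * (wcnt M n b : ℂ) = ∑ η : AddChar (ZMod M) ℂ,
      ((‖∑ x ∈ range n, η (x : ZMod M)‖ ^ 2 : ℝ) : ℂ) * η b := by
  have hM : (M : ℂ) = (Fintype.card (ZMod M) : ℂ) := by rw [ZMod.card]
  have h1 : ∀ η : AddChar (ZMod M) ℂ,
      ((‖∑ x ∈ range n, η (x : ZMod M)‖ ^ 2 : ℝ) : ℂ) * η b =
      ∑ z ∈ range n ×ˢ range n, η (b + ((z.2 : ℕ) : ZMod M) - ((z.1 : ℕ) : ZMod M)) := by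
    intro η
    rw [← Complex.normSq_eq_norm_sq, Complex.normSq_eq_conj_mul_self, map_sum, Finset.sum_mul_sum,
      Finset.sum_product, Finset.sum_mul]
    refine Finset.sum_congr rfl fun x _ => ?_
    rw [Finset.sum_mul]
    refine Finset.sum_congr rfl fun y _ => ?_
    rw [sub_eq_add_neg, AddChar.map_add_eq_mul, AddChar.map_add_eq_mul, AddChar.map_neg_eq_conj]
    ring
  rw [Finset.sum_congr rfl fun η _ => h1 η, Finset.sum_comm]
  have h2 : ∀ z : ℕ × ℕ, ∑ η : AddChar (ZMod M) ℂ,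
      η (b + ((z.2 : ℕ) : ZMod M) - ((z.1 : ℕ) : ZMod M)) =
      if ((z.1 : ℕ) : ZMod M) - ((z.2 : ℕ) : ZMod M) = b then (M : ℂ) else 0 := by
    intro z
    rw [AddChar.sum_apply_eq_ite, hM]
    have h3 : (b + ((z.2 : ℕ) : ZMod M) - ((z.1 : ℕ) : ZMod M) = 0) ↔
        (((z.1 : ℕ) : ZMod M) - ((z.2 : ℕ) : ZMod M) = b) := by
      constructor
      · intro h
        linear_combination -h
      · intro h
        linear_combination -h
    simp only [h3]
  rw [Finset.sum_congr rfl fun z _ => h2 z, ← Finset.sum_filter, Finset.sum_const, nsmul_eq_mul,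
    wcnt, mul_comm]

/-- the value at an integer of absolute value `< n` -/
private theorem wcnt_ge (M n : ℕ) (m : ℤ) : (n : ℤ) - |m| ≤ wcnt M n (m : ZMod M) := by
  rcases le_or_gt (n : ℤ) |m| with h | h
  · have : (0 : ℤ) ≤ (wcnt M n (m : ZMod M) : ℤ) := by positivity
    omega
  -- injection `j ↦ (j + max m 0, j + max (-m) 0)` from `range (n - |m|)`
  set k : ℕ := n - m.natAbs with hk
  have hk' : (n : ℤ) - |m| = k := by
    rw [Int.abs_eq_natAbs] at h ⊢
    omega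
  rw [hk']
  have hc : #(range k) ≤ wcnt M n (m : ZMod M) := by
    refine Finset.card_le_card_of_injOn (fun j => (j + m.toNat, j + (-m).toNat)) ?_ ?_
    · intro j hj
      have hj' : j < k := by simpa using hj
      simp only [Finset.coe_filter, Finset.mem_product, Finset.mem_range, Set.mem_ofPred_eq]
      refine ⟨⟨by omega, by omega⟩, ?_⟩
      have h3 : ((j + m.toNat : ℕ) : ℤ) - ((j + (-m).toNat : ℕ) : ℤ) = m := by
        push_cast
        omega
      show ((j + m.toNat : ℕ) : ZMod M) - ((j + (-m).toNat : ℕ) : ZMod M) = (m : ZMod M)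
      rw [← Int.cast_natCast (R := ZMod M) (j + m.toNat), ← Int.cast_natCast (R := ZMod M)
        (j + (-m).toNat), ← Int.cast_sub, h3]
    · intro a _ b _ hab
      have := congrArg Prod.fst hab
      simpa using this
  rw [card_range] at hc
  exact_mod_cast hc

/-- at most `n` pairs, none outside `|m| < n` -/
private theorem wcnt_le (M n : ℕ) (hn : n ≤ M) (b : ZMod M) : wcnt M n b ≤ n := by
  have : wcnt M n b ≤ #(range n) := by
    refine Finset.card_le_card_of_injOn Prod.fst ?_ ?_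
    · intro z hz
      simp only [Finset.coe_filter, Finset.mem_product, Set.mem_ofPred_eq] at hz
      exact hz.1.1
    · intro a ha c hc hac
      simp only [Finset.coe_filter, Finset.mem_product, Finset.mem_range, Set.mem_ofPred_eq] at ha hc
      have h1 : ((a.2 : ℕ) : ZMod M) = ((c.2 : ℕ) : ZMod M) := by
        have e1 := ha.2
        have e2 := hc.2
        rw [hac] at e1
        have e3 := e1.trans e2.symm
        exact sub_right_injective e3
      have h2 : a.2 = c.2 := by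
        rw [ZMod.natCast_eq_natCast_iff'] at h1
        rwa [Nat.mod_eq_of_lt (by omega), Nat.mod_eq_of_lt (by omega)] at h1
      exact Prod.ext hac h2
  simpa using this

private theorem wcnt_supp (M n : ℕ) (b : ZMod M) (hb : wcnt M n b ≠ 0) :
    ∃ m : ℤ, |m| < n ∧ b = (m : ZMod M) := by
  have hpos : 0 < wcnt M n b := Nat.pos_of_ne_zero hb
  rw [wcnt, Finset.card_pos] at hpos
  obtain ⟨z, hz⟩ := hpos
  simp only [Finset.mem_filter, Finset.mem_product, Finset.mem_range] at hz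
  refine ⟨(z.1 : ℤ) - z.2, ?_, ?_⟩
  · rw [abs_lt]
    constructor <;> omega
  · rw [← hz.2]
    push_cast
    rfl

theorem window_fun (M : ℕ) [NeZero M] (h : ℕ) (hh : 1 ≤ h) (hhM : 8 * h < M) (a₀ : ℤ) :
    ∃ (w : ZMod M → ℝ) (C : AddChar (ZMod M) ℂ → ℂ), ∑ η, ‖C η‖ ≤ 2 ∧
      (∀ a, (w a : ℂ) = ∑ η, C η * η a) ∧ (∀ a, 0 ≤ w a) ∧ (∀ a, w a ≤ 2) ∧
      (∀ m : ℤ, |m - a₀| ≤ h → 1 ≤ w (m : ZMod M)) ∧
      (∀ a, w a ≠ 0 → ∃ m : ℤ, |m - a₀| < 2 * h ∧ a = (m : ZMod M)) := by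
  have hM0 : (M : ℝ) ≠ 0 := by
    have : M ≠ 0 := NeZero.ne M
    exact_mod_cast this
  have hh0 : (0 : ℝ) < h := by exact_mod_cast hh
  have hMpos : (0 : ℝ) < M := lt_of_le_of_ne (Nat.cast_nonneg _) (Ne.symm hM0)
  set J : AddChar (ZMod M) ℂ → ℂ := fun η => ∑ x ∈ range (2 * h), η (x : ZMod M) with hJ
  have hF : ∀ b : ZMod M, (M : ℂ) * (wcnt M (2 * h) b : ℂ) =
      ∑ η : AddChar (ZMod M) ℂ, ((‖J η‖ ^ 2 : ℝ) : ℂ) * η b := fun b => wcnt_fourier M (2 * h) b
  refine ⟨fun a => (wcnt M (2 * h) (a - (a₀ : ZMod M)) : ℝ) / h,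
    fun η => ((‖J η‖ ^ 2 / (h * M) : ℝ) : ℂ) * η (-(a₀ : ZMod M)), ?_, ?_, ?_, ?_, ?_, ?_⟩
  · -- the sum of the absolute values
    have h1 : (M : ℂ) * (wcnt M (2 * h) 0 : ℂ) = ((∑ η, ‖J η‖ ^ 2 : ℝ) : ℂ) := by
      rw [hF 0]
      push_cast
      refine Finset.sum_congr rfl fun η _ => ?_
      rw [AddChar.map_zero_eq_one, mul_one]
    have h2 : (M : ℝ) * (wcnt M (2 * h) 0 : ℝ) = ∑ η, ‖J η‖ ^ 2 := by exact_mod_cast h1
    have h3 : (wcnt M (2 * h) 0 : ℝ) ≤ 2 * h := by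
      have := wcnt_le M (2 * h) (by omega) 0
      exact_mod_cast this
    calc ∑ η, ‖((‖J η‖ ^ 2 / (h * M) : ℝ) : ℂ) * η (-(a₀ : ZMod M))‖
        = ∑ η, ‖J η‖ ^ 2 / (h * M) := by
          refine Finset.sum_congr rfl fun η _ => ?_
          rw [norm_mul, AddChar.norm_apply, mul_one, Complex.norm_real, Real.norm_eq_abs, abs_of_nonneg
            (by positivity)]
      _ = (M : ℝ) * (wcnt M (2 * h) 0 : ℝ) / (h * M) := by rw [← Finset.sum_div, h2]
      _ = (wcnt M (2 * h) 0 : ℝ) / h := by field_simp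
      _ ≤ 2 := by
          rw [div_le_iff₀ hh0]
          exact h3
  · intro a
    have h1 := hF (a - (a₀ : ZMod M))
    have hMC : (M : ℂ) ≠ 0 := by exact_mod_cast hM0
    have hhC : (h : ℂ) ≠ 0 := by exact_mod_cast hh0.ne'
    have h2 : (((wcnt M (2 * h) (a - (a₀ : ZMod M)) : ℝ) / h : ℝ) : ℂ) =
        (M : ℂ) * (wcnt M (2 * h) (a - (a₀ : ZMod M)) : ℂ) / (h * M) := by
      push_cast
      field_simp
    show (((wcnt M (2 * h) (a - (a₀ : ZMod M)) : ℝ) / h : ℝ) : ℂ) = _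
    rw [h2, h1, Finset.sum_div]
    refine Finset.sum_congr rfl fun η _ => ?_
    rw [sub_eq_add_neg, AddChar.map_add_eq_mul]
    push_cast
    ring
  · intro a
    positivity
  · intro a
    have := wcnt_le M (2 * h) (by omega) (a - (a₀ : ZMod M))
    have h3 : (wcnt M (2 * h) (a - (a₀ : ZMod M)) : ℝ) ≤ 2 * h := by exact_mod_cast this
    show (wcnt M (2 * h) (a - (a₀ : ZMod M)) : ℝ) / h ≤ 2
    rw [div_le_iff₀ hh0]
    exact h3
  · intro m hm
    have h1 := wcnt_ge M (2 * h) (m - a₀)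
    have h2 : (h : ℤ) ≤ wcnt M (2 * h) ((m - a₀ : ℤ) : ZMod M) := by
      push_cast at h1
      push_cast
      omega
    have h3 : (h : ℝ) ≤ wcnt M (2 * h) ((m : ZMod M) - (a₀ : ZMod M)) := by
      have : ((m - a₀ : ℤ) : ZMod M) = (m : ZMod M) - (a₀ : ZMod M) := by push_cast; rfl
      rw [this] at h2
      exact_mod_cast h2
    show 1 ≤ (wcnt M (2 * h) ((m : ZMod M) - (a₀ : ZMod M)) : ℝ) / h
    rw [le_div_iff₀ hh0, one_mul]
    exact h3
  · intro a ha
    have h1 : wcnt M (2 * h) (a - (a₀ : ZMod M)) ≠ 0 := by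
      intro h0
      apply ha
      show (wcnt M (2 * h) (a - (a₀ : ZMod M)) : ℝ) / h = 0
      rw [h0]
      simp
    obtain ⟨m, hm, hb⟩ := wcnt_supp M (2 * h) _ h1
    refine ⟨m + a₀, ?_, ?_⟩
    · push_cast at hm
      simpa using hm
    · push_cast
      rw [← hb]
      ring

theorem en_cast {τ : Type*} (M : ℕ) (T : Finset τ) (F : τ → ℤ)
    (h : ∀ x ∈ T, ∀ y ∈ T, |F x - F y| < M) :
    en T (fun x => ((F x : ℤ) : ZMod M)) = en T F := by
  unfold en
  congr 1
  refine Finset.filter_congr fun z hz => ?_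
  rw [Finset.mem_product] at hz
  constructor
  · intro he
    have hd : ((F z.1 - F z.2 : ℤ) : ZMod M) = 0 := by
      push_cast
      rw [sub_eq_zero]
      exact he
    rw [ZMod.intCast_zmod_eq_zero_iff_dvd] at hd
    have := Int.eq_zero_of_abs_lt_dvd hd (h _ hz.1 _ hz.2)
    omega
  · intro he
    show ((F z.1 : ℤ) : ZMod M) = ((F z.2 : ℤ) : ZMod M)
    rw [he]

end Pool.Agent.Helper19.P3
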